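import Pool.Agent.W6h79.HT3.Dec
import Pool.Agent.H645R2.HT.Univ

/-!
The colouring obtained from `θ` and the relation it forces on its homogeneous sets.
-/

namespace Pool.Agent.W6h79.HT3

open Pool.Agent.H645R2.HT

/-- The recursive sum, with `k` levels. -/
def Zf (θ : ℕ → ℕ → ℕ → ℕ → Bool) (β : ℕ → ℕ → ℕ → Bool) (ρ : Bool) (a : ℕ) :
    ℕ → List ℕ → Bool
  | 0, _ => false
  | k + 1, B => ss (fun C t => xor (θ (B.getLastD 0) a (C.getLastD 0) t) (Zf θ β ρ a k C))
      (dec ρ (β (B.getLastD 0)) false B).2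

theorem length_lt {X : List (List ℕ)} (h : ∀ B ∈ X, B ≠ []) :
    ∀ C ∈ X.dropLast, C.length < X.flatten.length := by
  induction X with
  | nil => simp
  | cons B X ih =>
    cases X with
    | nil => simp
    | cons D X =>
      intro C hC
      rw [List.dropLast_cons_of_ne_nil (by simp)] at hC
      rw [List.flatten_cons, List.length_append]
      rcases List.mem_cons.1 hC with rfl | hC
      · have h1 : D ≠ [] := h D (by simp)
        have h2 : 0 < D.length := List.length_pos_iff.2 h1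
        rw [List.flatten_cons, List.length_append]
        omega
      · have := ih (fun E hE => h E (List.mem_cons_of_mem _ hE)) C hC
        omega

theorem Zf_stable {θ : ℕ → ℕ → ℕ → ℕ → Bool} {β : ℕ → ℕ → ℕ → Bool} {ρ : Bool} {a : ℕ} :
    ∀ (k j : ℕ) (B : List ℕ), B.length ≤ k → B.length ≤ j → Zf θ β ρ a k B = Zf θ β ρ a j B := by
  intro k
  induction k with
  | zero =>
    intro j B h1 _
    have h2 : B = [] := List.length_eq_zero_iff.1 (by omega)
    subst h2
    cases j with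
    | zero => rfl
    | succ j => simp [Zf, dec, ss]
  | succ k ih =>
    intro j B h1 h2
    cases j with
    | zero =>
      have h2 : B = [] := List.length_eq_zero_iff.1 (by omega)
      subst h2
      simp [Zf, dec, ss]
    | succ j =>
      simp only [Zf]
      refine ss_congr' fun C hC t => ?_
      have h3 := length_lt (dec_mem_ne (ρ := ρ) (β := β (B.getLastD 0)) (p := false) B) C hC
      rw [dec_flatten] at h3
      rw [ih j C (by omega) (by omega)]

/-- The recursive sum. -/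
def Z (θ : ℕ → ℕ → ℕ → ℕ → Bool) (β : ℕ → ℕ → ℕ → Bool) (ρ : Bool) (a : ℕ) (B : List ℕ) : Bool :=
  Zf θ β ρ a B.length B

theorem Z_eq {θ : ℕ → ℕ → ℕ → ℕ → Bool} {β : ℕ → ℕ → ℕ → Bool} {ρ : Bool} {a : ℕ}
    (B : List ℕ) : Z θ β ρ a B =
      ss (fun C t => xor (θ (B.getLastD 0) a (C.getLastD 0) t) (Z θ β ρ a C))
      (dec ρ (β (B.getLastD 0)) false B).2 := by
  unfold Z
  rw [Zf_stable B.length (B.length + 1) B le_rfl (by omega)]
  simp only [Zf]
  refine ss_congr' fun C hC t => ?_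
  have h3 := length_lt (dec_mem_ne (ρ := ρ) (β := β (B.getLastD 0)) (p := false) B) C hC
  rw [dec_flatten] at h3
  rw [Zf_stable B.length C.length C (by omega) le_rfl]

/-- Stage `s` is correct up to `x`. -/
def Gd (W : ℕ → ℕ → Bool) (s x : ℕ) : Prop := ∀ z ≤ x, ∀ t, W t z = true → W s z = true

/-- The gap `(a, b)` is a boundary, seen at stage `s`. -/
def bd (W : ℕ → ℕ → Bool) (s a b : ℕ) : Bool := !(g1 W s a b s)

open Classical in
/-- The gap `(a, b)` is a boundary. -/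
noncomputable def bdT (W : ℕ → ℕ → Bool) (a b : ℕ) : Bool := decide (Gd W b a)

variable {W : ℕ → ℕ → Bool} {X : Set ℕ}

theorem bd_iff {s a b : ℕ} : bd W s a b = true ↔ ∀ z ≤ a, W s z = true → W b z = true := by
  unfold bd
  rw [Bool.not_eq_true', ← Bool.not_eq_true, g1_iff]
  push Not
  refine forall_congr' fun z => forall_congr' fun _ => forall_congr' fun _ => ?_
  exact Bool.not_eq_false _ ▸ Iff.rfl

theorem bdT_iff {a b : ℕ} : bdT W a b = true ↔ Gd W b a := by
  simp [bdT]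

theorem Gd.mono (hW : Mon W) {s t x y : ℕ} (h : Gd W s x) (hst : s ≤ t) (hxy : y ≤ x) :
    Gd W t y := fun z hz r hr => hW s t z hst (h z (by omega) r hr)

theorem bd_eq {s a b : ℕ} (h : Gd W s a) : bd W s a b = bdT W a b := by
  rw [Bool.eq_iff_iff, bd_iff, bdT_iff]
  constructor
  · intro h1 z hz t ht
    exact h1 z hz (h z hz t ht)
  · intro h1 z hz ht
    exact h1 z hz _ ht

theorem bd_of_Gd {s a b : ℕ} (h : Gd W b a) : bd W s a b = true :=
  bd_iff.2 fun z hz ht => h z hz _ ht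

theorem Gd_of_bd {s a b : ℕ} (h : bd W s a b = true) (h2 : Gd W s a) : Gd W b a := by
  rw [bd_eq h2, bdT_iff] at h
  exact h

theorem exists_Gd (hW : Mon W) (x : ℕ) : ∃ N, ∀ s, N ≤ s → Gd W s x := by
  obtain ⟨N, hN⟩ := exists_stage hW x
  exact ⟨N, fun s hs z hz t ht => hW N s z hs (hN z hz t ht)⟩

/-- The number (mod 2) of boundaries. -/
def cN (W : ℕ → ℕ → Bool) (n : ℕ) : Bool := gs (bd W (mu n)) (L n)

/-- The colouring. -/
def cT (W : ℕ → ℕ → Bool) (θ : ℕ → ℕ → ℕ → ℕ → Bool) (ρ : Bool) (n : ℕ) : Bool :=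
  Z θ (bd W) ρ (la n) (L n)

theorem modOK_Gd (hM : ModOK W X) {h : ℕ} (hh : h ∈ X) : Gd W (mu h) (la h) := hM h hh

theorem getLastD_L (n : ℕ) : (L n).getLastD 0 = mu n := rfl

theorem headD_L (n : ℕ) : (L n).headD 0 = la n := rfl

/-- What the colouring `cN` gives. -/
theorem of_cN (hW : Mon W) (hp : Ps X) (hf : Far X) (hM : ModOK W X) {i : Bool}
    (h1 : ∀ x ∈ X, cN W x = i) (h2 : ∀ x ∈ X, ∀ y ∈ X, Sep x y → cN W (x + y) = i) :
    (∀ x ∈ X, gs (bdT W) (L x) = true) ∧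
      (∀ x ∈ X, ∀ y ∈ X, Sep x y → Gd W (la y) (mu x)) := by
  have key : ∀ x ∈ X, ∀ y ∈ X, Sep x y → gs (bdT W) (L x) = bd W (mu y) (mu x) (la y) := by
    intro x hx y hy hxy
    have e1 := h2 x hx y hy hxy
    unfold cN at e1
    rw [gs_add (hp x hx) (hp y hy) hxy, mu_add (hp y hy) hxy] at e1
    have e2 := h1 y hy
    unfold cN at e2
    rw [e2] at e1
    have e3 : gs (bd W (mu y)) (L x) = gs (bdT W) (L x) := by
      refine gs_congr (L_sorted x).pairwise fun a ha b hb _ => ?_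
      refine bd_eq ((modOK_Gd hM hy).mono hW le_rfl ?_)
      have := le_mu ha
      unfold Pool.Agent.H645R2.HT.Sep at hxy
      omega
    rw [e3] at e1
    revert e1
    cases gs (bdT W) (L x) <;> cases bd W (mu y) (mu x) (la y) <;> cases i <;> decide
  have k1 : ∀ x ∈ X, gs (bdT W) (L x) = true := by
    intro x hx
    obtain ⟨N, hN⟩ := exists_Gd hW (mu x)
    obtain ⟨y, hy, hyl⟩ := hf (max N (mu x))
    have hxy : Sep x y := by unfold Pool.Agent.H645R2.HT.Sep; omega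
    rw [key x hx y hy hxy]
    exact bd_of_Gd (hN _ (by omega))
  refine ⟨k1, fun x hx y hy hxy => ?_⟩
  have e1 := key x hx y hy hxy
  rw [k1 x hx] at e1
  refine Gd_of_bd e1.symm ((modOK_Gd hM hy).mono hW le_rfl ?_)
  unfold Pool.Agent.H645R2.HT.Sep at hxy
  omega

section main

variable {θ : ℕ → ℕ → ℕ → ℕ → Bool} {θT : ℕ → ℕ → ℕ → Bool} {i : Bool}

/-- The true decomposition. -/
noncomputable def Dt (W : ℕ → ℕ → Bool) (ρ : Bool) (x : ℕ) : List (List ℕ) :=
  (dec ρ (bdT W) (!ρ) (L x)).2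

/-- The summand. -/
def ff (W : ℕ → ℕ → Bool) (θ : ℕ → ℕ → ℕ → ℕ → Bool) (ρ : Bool) (s a : ℕ) (C : List ℕ)
    (t : ℕ) : Bool := xor (θ s a (C.getLastD 0) t) (Z θ (bd W) ρ a C)

/-- The true summand. -/
def ft (W : ℕ → ℕ → Bool) (θ : ℕ → ℕ → ℕ → ℕ → Bool) (θT : ℕ → ℕ → ℕ → Bool) (ρ : Bool)
    (a : ℕ) (C : List ℕ) (t : ℕ) : Bool := xor (θT a (C.getLastD 0) t) (Z θ (bd W) ρ a C)

theorem ff_eq (hθ : ∀ s a b t, Gd W s t → θ s a b t = θT a b t) {ρ : Bool} {s a : ℕ}
    {C : List ℕ} {t : ℕ} (h : Gd W s t) : ff W θ ρ s a C t = ft W θ θT ρ a C t := by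
  unfold ff ft
  rw [hθ _ _ _ _ h]

/-- Good stages for the true decomposition of `x`. -/
theorem good_Dt (hW : Mon W) {ρ : Bool} {x : ℕ} :
    ∀ C ∈ (Dt W ρ x).tail, Gd W (mu x) (C.headD 0) := by
  refine good_tail (P := fun t => Gd W (mu x) t) (fun s t hst h => h.mono hW le_rfl hst)
    (L_sorted x).pairwise fun u hu v hv _ h => ?_
  exact (bdT_iff.1 h).mono hW (le_mu hv) le_rfl

theorem ss_Dt (hW : Mon W) (hθ : ∀ s a b t, Gd W s t → θ s a b t = θT a b t) {ρ : Bool}
    {x s a : ℕ} (hs : mu x ≤ s) :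
    ss (ff W θ ρ s a) (Dt W ρ x) = ss (ft W θ θT ρ a) (Dt W ρ x) :=
  ss_congr (P := fun t => Gd W s t) (fun _ _ h => ff_eq hθ h)
    fun C hC => (good_Dt hW C hC).mono hW hs le_rfl

/-- The total value of `x`. -/
noncomputable def VV (W : ℕ → ℕ → Bool) (θ : ℕ → ℕ → ℕ → ℕ → Bool) (θT : ℕ → ℕ → ℕ → Bool)
    (ρ : Bool) (a x : ℕ) : Bool :=
  xor (ss (ft W θ θT ρ a) (Dt W ρ x)) (Z θ (bd W) ρ a ((Dt W ρ x).getLastD []))

theorem Z_eq' {ρ : Bool} {a : ℕ} (B : List ℕ) : Z θ (bd W) ρ a B =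
    ss (ff W θ ρ (B.getLastD 0) a) (dec ρ (bd W (B.getLastD 0)) false B).2 := Z_eq B

/-- The value of `Z` on an element of `X`. -/
theorem Z_VV (hW : Mon W) (hp : Ps X)
    (hθ : ∀ s a b t, Gd W s t → θ s a b t = θT a b t) {i : Bool}
    (h1 : ∀ x ∈ X, cN W x = i) (h3 : ∀ x ∈ X, gs (bdT W) (L x) = true) {x : ℕ} (hx : x ∈ X)
    (a : ℕ) : Z θ (bd W) i a (L x) = VV W θ θT i a x ∧
      ((Dt W i x).getLastD []).getLastD 0 = mu x := by
  obtain ⟨Bs, Y, e1, e2, e3, e4, e5⟩ := dec_split (ρ := i) (β := bd W (mu x)) (β' := bdT W)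
    (L_sorted x).pairwise (L_ne_nil (hp x hx))
    (fun u hu v hv _ h => bd_of_Gd (bdT_iff.1 h))
    (fun u hu v hv u' hu' v' hv' h5 h6 _ h =>
      bd_eq ((bdT_iff.1 h).mono hW (le_mu hv') (le_trans h5.le h6)))
    (by
      have := h1 x hx
      unfold cN at this
      rw [this, h3 x hx]
      cases i <;> decide)
  rw [getLastD_L] at e4
  have e6 : Dt W i x = Bs ++ [Y] := e1
  have e7 : (Dt W i x).getLastD [] = Y := by rw [e6]; simp [List.getLastD_eq_getLast?]
  refine ⟨?_, by rw [e7, e4]⟩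
  unfold VV
  rw [e7, ← ss_Dt (s := mu x) hW hθ le_rfl, Z_eq' (L x), getLastD_L, e2, Z_eq' Y, e4, e6]
  refine ss_split _ _ _ _ (dec_ne_nil e3) ?_
  cases Y with
  | nil => exact absurd rfl e3
  | cons c Y =>
    obtain ⟨B, Bs', h⟩ := dec_head (ρ := i) (β := bd W (mu x)) (p := false) c Y
    rw [h]
    rfl

/-- The relation forced by the colourings. -/
theorem main_rel (hW : Mon W) (hp : Ps X) (hf : Far X) (hM : ModOK W X)
    (hθ : ∀ s a b t, Gd W s t → θ s a b t = θT a b t) {i : Bool}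
    (h1 : ∀ x ∈ X, cN W x = i) (h2 : ∀ x ∈ X, ∀ y ∈ X, Sep x y → cN W (x + y) = i)
    (he2 : Eq2 (cT W θ i) X) (he3 : Eq3 (cT W θ i) X) {x y z : ℕ} (hx : x ∈ X) (hy : y ∈ X)
    (hz : z ∈ X) (hxy : Sep x y) (hyz : Sep y z) :
    θT (la x) (mu x) (la z) = θT (la x) (mu y) (la z) := by
  obtain ⟨h3, h4⟩ := of_cN hW hp hf hM h1 h2
  have px := hp x hx
  have py := hp y hy
  have pz := hp z hz
  have hxz := sep_trans py hxy hyz
  have hxyz := sep_add_right py hxy hyz
  have nx := L_ne_nil px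
  have ny := L_ne_nil py
  have nz := L_ne_nil pz
  obtain ⟨zx, mx⟩ := Z_VV hW hp hθ h1 h3 hx (la x)
  obtain ⟨zy, my⟩ := Z_VV hW hp hθ h1 h3 hy (la x)
  -- decomposition of `u + r`
  have dx : ∀ u ∈ X, ∀ v ∈ X, Sep u v → ∀ s p, Gd W s (la v) →
      dec i (bd W s) p (L u) = dec i (bdT W) p (L u) := by
    intro u hu v hv huv s p hs
    refine dec_congr (L_sorted u).pairwise fun a ha b hb _ => bd_eq (hs.mono hW le_rfl ?_)
    have := le_mu ha
    unfold Pool.Agent.H645R2.HT.Sep at huv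
    omega
  have lDt : ∀ u ∈ X, Dt W i u ≠ [] := fun u hu => dec_ne_nil (L_ne_nil (hp u hu))
  have step : ∀ u ∈ X, ∀ v ∈ X, Sep u v → ∀ r, r ≠ [] → r.headD 0 = la v → ∀ s, Gd W s (la v) →
      (dec i (bd W s) false r).1 = i →
      (dec i (bd W s) false (L u ++ r)).1 = i ∧
      (dec i (bd W s) false (L u ++ r)).2 = Dt W i u ++ (dec i (bd W s) false r).2 := by
    intro u hu v hv huv r hr hrv s hs hpar
    have e1 := dec_append (ρ := i) (β := bd W s) (p := false) (L u) (L_ne_nil (hp u hu)) r hr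
      (by
        rw [hrv]
        exact bd_of_Gd (h4 u hu v hv huv)) hpar
    rw [e1, dx u hu v hv huv s _ hs]
    refine ⟨?_, rfl⟩
    rw [dec_fst, h3 u hu]
    cases i <;> rfl
  have sstep : ∀ u ∈ X, ∀ v ∈ X, Sep u v → ∀ r, r ≠ [] → r.headD 0 = la v → ∀ s, mu v ≤ s →
      (dec i (bd W s) false r).1 = i →
      ss (ff W θ i s (la x)) (dec i (bd W s) false (L u ++ r)).2 =
      xor (xor (VV W θ θT i (la x) u) (θT (la x) (mu u) (la v)))
        (ss (ff W θ i s (la x)) (dec i (bd W s) false r).2) := by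
    intro u hu v hv huv r hr hrv s hs hpar
    have hgd : Gd W s (la v) := (modOK_Gd hM hv).mono hW hs le_rfl
    rw [(step u hu v hv huv r hr hrv s hgd hpar).2,
      ss_append _ _ (lDt u hu) _ (dec_ne_nil hr)]
    have e1 : (((dec i (bd W s) false r).2.headD []).headD 0) = la v := by
      cases r with
      | nil => exact absurd rfl hr
      | cons c r =>
        obtain ⟨B, Bs', h⟩ := dec_head (ρ := i) (β := bd W s) (p := false) c r
        rw [h]
        simpa using hrv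
    have e2 := (Z_VV hW hp hθ h1 h3 hu (la x)).2
    have huv' : mu u ≤ s := by
      have := la_le_mu (hp v hv)
      unfold Pool.Agent.H645R2.HT.Sep at huv
      omega
    rw [e1, ss_Dt hW hθ huv', ff_eq hθ hgd]
    congr 1
    have e5 : ft W θ θT i (la x) ((Dt W i u).getLastD []) (la v) =
        xor (θT (la x) (mu u) (la v)) (Z θ (bd W) i (la x) ((Dt W i u).getLastD [])) := by
      unfold ft
      rw [e2]
    rw [e5]
    unfold VV
    generalize ss (ft W θ θT i (la x)) (Dt W i u) = A1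
    generalize θT (la x) (mu u) (la v) = A2
    generalize Z θ (bd W) i (la x) ((Dt W i u).getLastD []) = A3
    cases A1 <;> cases A2 <;> cases A3 <;> rfl
  have par1 : ∀ v ∈ X, (dec i (bd W (mu v)) false (L v)).1 = i := by
    intro v hv
    rw [dec_fst, Bool.false_xor]
    exact h1 v hv
  have zz : ∀ v ∈ X, ss (ff W θ i (mu v) (la x)) (dec i (bd W (mu v)) false (L v)).2 =
      Z θ (bd W) i (la x) (L v) := fun v _ => (Z_eq' (L v)).symm
  -- the two relations
  have r2 := he2 x hx y hy hxy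
  unfold cT at r2
  rw [la_add px hxy, L_add hxy, Z_eq' (L x ++ L y)] at r2
  have g1 : (L x ++ L y).getLastD 0 = mu y := by rw [← L_add hxy, getLastD_L, mu_add py hxy]
  rw [g1, sstep x hx y hy hxy (L y) ny (headD_L y) (mu y) le_rfl (par1 y hy), zz y hy, zx] at r2
  have r3 := he3 x hx y hy z hz hxy hyz
  unfold cT at r3
  rw [la_add px hxz, la_add px hxyz, L_add hxz, L_add hxyz, L_add hyz, Z_eq' (L x ++ L z),
    Z_eq' (L x ++ (L y ++ L z))] at r3
  have g2 : (L x ++ L z).getLastD 0 = mu z := by rw [← L_add hxz, getLastD_L, mu_add pz hxz]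
  have g3 : (L x ++ (L y ++ L z)).getLastD 0 = mu z := by
    rw [← L_add hyz, ← L_add hxyz, getLastD_L, mu_add (by omega) hxyz, mu_add pz hyz]
  have hgz : Gd W (mu z) (la z) := modOK_Gd hM hz
  have hyz' : mu y ≤ mu z := by
    have := la_le_mu pz
    unfold Pool.Agent.H645R2.HT.Sep at hyz
    omega
  have nyz : L y ++ L z ≠ [] := by simp [ny]
  have hhd : (L y ++ L z).headD 0 = la y := by rw [← L_add hyz, headD_L, la_add py hyz]
  rw [g2, g3, sstep x hx z hz hxz (L z) nz (headD_L z) (mu z) le_rfl (par1 z hz),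
    sstep x hx y hy hxy (L y ++ L z) nyz hhd (mu z) hyz'
      (step y hy z hz hyz (L z) nz (headD_L z) (mu z) hgz (par1 z hz)).1,
    sstep y hy z hz hyz (L z) nz (headD_L z) (mu z) le_rfl (par1 z hz), zz z hz, ← zy] at r3
  revert r2 r3
  generalize VV W θ θT i (la x) x = A1
  generalize θT (la x) (mu x) (la y) = A2
  generalize Z θ (bd W) i (la x) (L y) = A3
  generalize θT (la x) (mu x) (la z) = A4
  generalize θT (la x) (mu y) (la z) = A5
  generalize Z θ (bd W) i (la x) (L z) = A6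
  cases A1 <;> cases A2 <;> cases A3 <;> cases A4 <;> cases A5 <;> cases A6 <;> decide

end main

end Pool.Agent.W6h79.HT3
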