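import Pool.Agent.W6h79.HT3.Comb
import Pool.Agent.H645R2.HT.PartBc

/-!
Computability of the colourings `cN`, `cT`.
-/

namespace Pool.Agent.W6h79.HT3

open Pool.Agent.H645R2.HT Pool.Agent.Helper446 Pool.Agent.Helper446.RE

/-- Xor sum over a list of blocks. -/
def xs (h : List ℕ → Bool) : List (List ℕ) → Bool
  | [] => false
  | C :: W => xor (h C) (xs h W)

theorem xs_append (h : List ℕ → Bool) (U V : List (List ℕ)) :
    xs h (U ++ V) = xor (xs h U) (xs h V) := by
  induction U with
  | nil => simp [xs]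
  | cons C U ih => simp [xs, ih]

theorem ss_xor (f : List ℕ → ℕ → Bool) (h : List ℕ → Bool) (X : List (List ℕ)) :
    ss (fun C t => xor (f C t) (h C)) X = xor (ss f X) (xs h X.dropLast) := by
  induction X with
  | nil => rfl
  | cons B X ih =>
    cases X with
    | nil => rfl
    | cons C X =>
      rw [List.dropLast_cons_of_ne_nil (by simp)]
      simp only [ss, xs]
      rw [ih]
      generalize f B (C.headD 0) = a1
      generalize h B = a2
      generalize ss f (C :: X) = a3
      generalize xs h (C :: X).dropLast = a4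
      cases a1 <;> cases a2 <;> cases a3 <;> cases a4 <;> rfl

section iter

variable (θ : ℕ → ℕ → ℕ → ℕ → Bool) (β : ℕ → ℕ → ℕ → Bool) (ρ : Bool) (a : ℕ)

/-- The blocks of a block. -/
def bk (B : List ℕ) : List (List ℕ) := (dec ρ (β (B.getLastD 0)) false B).2

/-- The direct contribution of a block. -/
def sθ (B : List ℕ) : Bool :=
  ss (fun C t => θ (B.getLastD 0) a (C.getLastD 0) t) (bk β ρ B)

/-- One level of the computation. -/
def stp (st : Bool × List (List ℕ)) : Bool × List (List ℕ) :=
  st.2.foldl (fun r B => (xor r.1 (sθ θ β ρ a B), (bk β ρ B).dropLast ++ r.2)) (st.1, [])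

theorem stp_aux (h : List ℕ → Bool) (work : List (List ℕ)) (r0 : Bool × List (List ℕ)) :
    (work.foldl (fun r B => (xor r.1 (sθ θ β ρ a B), (bk β ρ B).dropLast ++ r.2)) r0).1 =
      xor r0.1 (xs (sθ θ β ρ a) work) ∧
    xs h (work.foldl (fun r B => (xor r.1 (sθ θ β ρ a B), (bk β ρ B).dropLast ++ r.2)) r0).2 =
      xor (xs h r0.2) (xs (fun B => xs h (bk β ρ B).dropLast) work) := by
  induction work generalizing r0 with
  | nil => simp [xs]
  | cons B work ih =>
    rw [List.foldl_cons]
    obtain ⟨h1, h2⟩ := ih (xor r0.1 (sθ θ β ρ a B), (bk β ρ B).dropLast ++ r0.2)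
    rw [h1, h2]
    simp only [xs, xs_append]
    constructor
    · rw [Bool.xor_assoc]
    · rw [Bool.xor_comm (xs h (bk β ρ B).dropLast), Bool.xor_assoc]

theorem Zf_xs (k : ℕ) (B : List ℕ) :
    Zf θ β ρ a (k + 1) B = xor (sθ θ β ρ a B) (xs (Zf θ β ρ a k) (bk β ρ B).dropLast) := by
  simp only [Zf]
  exact ss_xor _ _ _

theorem xs_xor (f h : List ℕ → Bool) (X : List (List ℕ)) :
    xs (fun B => xor (f B) (h B)) X = xor (xs f X) (xs h X) := by
  induction X with
  | nil => rfl
  | cons B X ih =>
    simp only [xs]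
    rw [ih]
    generalize f B = a1
    generalize h B = a2
    generalize xs f X = a3
    generalize xs h X = a4
    cases a1 <;> cases a2 <;> cases a3 <;> cases a4 <;> rfl

theorem stp_iter (k : ℕ) (st : Bool × List (List ℕ)) :
    (Nat.rec (motive := fun _ => Bool × List (List ℕ)) st (fun _ s => stp θ β ρ a s) k).1 =
      xor st.1 (xs (Zf θ β ρ a k) st.2) ∧
    ∀ j, xs (Zf θ β ρ a j) (Nat.rec (motive := fun _ => Bool × List (List ℕ)) st
      (fun _ s => stp θ β ρ a s) k).2 = xs (Zf θ β ρ a j) (Nat.rec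
        (motive := fun _ => Bool × List (List ℕ)) st (fun _ s => stp θ β ρ a s) k).2 := by
  refine ⟨?_, fun _ => rfl⟩
  have hz : ∀ W : List (List ℕ), xs (Zf θ β ρ a 0) W = false := by
    intro W
    induction W with
    | nil => rfl
    | cons C W ih =>
      simp only [xs, ih]
      simp [Zf]
  have key : ∀ (k j : ℕ) (st : Bool × List (List ℕ)),
      xor (Nat.rec (motive := fun _ => Bool × List (List ℕ)) st
        (fun _ s => stp θ β ρ a s) k).1 (xs (Zf θ β ρ a j)
        (Nat.rec (motive := fun _ => Bool × List (List ℕ)) st (fun _ s => stp θ β ρ a s) k).2) =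
      xor st.1 (xs (Zf θ β ρ a (j + k)) st.2) := by
    intro k
    induction k with
    | zero => intro j st; rfl
    | succ k ih =>
      intro j st
      rw [show j + (k + 1) = (j + 1) + k by ring, ← ih (j + 1) st]
      generalize hS : (Nat.rec (motive := fun _ => Bool × List (List ℕ)) st
        (fun _ s => stp θ β ρ a s) k : Bool × List (List ℕ)) = S
      have e1 : (Nat.rec (motive := fun _ => Bool × List (List ℕ)) st
        (fun _ s => stp θ β ρ a s) (k + 1) : Bool × List (List ℕ)) = stp θ β ρ a S := by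
        rw [← hS]
      rw [e1]
      obtain ⟨h1, h2⟩ := stp_aux θ β ρ a (Zf θ β ρ a j) S.2 (S.1, [])
      unfold stp
      rw [h1, h2]
      have e2 : xs (Zf θ β ρ a (j + 1)) S.2 = xs (fun B => xor (sθ θ β ρ a B)
          (xs (Zf θ β ρ a j) (bk β ρ B).dropLast)) S.2 := by
        congr 1
        funext B
        exact Zf_xs θ β ρ a j B
      rw [e2, xs_xor]
      simp only [xs, Bool.false_xor, Bool.xor_assoc]
  have := key k 0 st
  rw [hz, Bool.xor_false, Nat.zero_add] at this
  exact this

theorem Z_iter (B : List ℕ) : Z θ β ρ a B =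
    (Nat.rec (motive := fun _ => Bool × List (List ℕ)) (false, [B])
      (fun _ s => stp θ β ρ a s) B.length).1 := by
  rw [(stp_iter θ β ρ a B.length (false, [B])).1]
  simp [xs, Z]

end iter

/-! ### Computability -/

/-- One step of the decomposition. -/
def dstep (ρ : Bool) (β : ℕ → ℕ → Bool) (r : Bool × List (List ℕ)) (a : ℕ) :
    Bool × List (List ℕ) :=
  bif decide (r.2.length = 0) then (r.1, [[a]]) else
    bif β a ((r.2.headD []).headD 0) then
      (!r.1, bif xor r.1 ρ then psh a r.2 else [a] :: r.2)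
    else (r.1, psh a r.2)

theorem dec_foldl (ρ : Bool) (β : ℕ → ℕ → Bool) (p : Bool) (l : List ℕ) :
    dec ρ β p l = l.reverse.foldl (fun r a => dstep ρ β r a) (p, []) := by
  induction l with
  | nil => rfl
  | cons a l ih =>
    rw [List.reverse_cons, List.foldl_append, List.foldl_cons, List.foldl_nil, ← ih]
    cases l with
    | nil => rfl
    | cons b l =>
      obtain ⟨B, Bs, h⟩ := dec_head (ρ := ρ) (β := β) (p := p) b l
      unfold dstep
      have h1 : decide ((dec ρ β p (b :: l)).2.length = 0) = false := by rw [h]; simp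
      have h2 : ((dec ρ β p (b :: l)).2.headD []).headD 0 = b := by rw [h]; rfl
      rw [h1, h2]
      simp only [dec, cond_false]

section comp

variable {α : Type*} [Primcodable α]

theorem headD_eq' (l : List (List ℕ)) : l.headD [] = (l[0]?).getD [] := by
  cases l <;> simp

theorem c_headD' {f : α → List (List ℕ)} (hf : Computable f) :
    Computable fun a => (f a).headD [] := by
  simp only [headD_eq']
  fun_prop

theorem psh_eq (a : ℕ) (X : List (List ℕ)) : psh a X = (a :: X.headD []) :: X.tail := by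
  cases X <;> rfl

theorem c_tail' {f : α → List (List ℕ)} (hf : Computable f) :
    Computable fun a => (f a).tail := Primrec.list_tail.to_comp.comp hf

theorem c_psh {f : α → List (List ℕ)} {g : α → ℕ} (hf : Computable f) (hg : Computable g) :
    Computable fun a => psh (g a) (f a) := by
  simp only [psh_eq]
  exact ccons (ccons hg (c_headD' hf)) (c_tail' hf)

theorem c_dropLast {f : α → List (List ℕ)} (hf : Computable f) :
    Computable fun a => (f a).dropLast := by
  have h : ∀ l : List (List ℕ), l.dropLast = l.reverse.tail.reverse := by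
    intro l
    rw [List.tail_reverse, List.reverse_reverse]
  simp only [h]
  exact Computable.list_reverse.comp (Primrec.list_tail.to_comp.comp
    (Computable.list_reverse.comp hf))

theorem c_dec {β : α → ℕ → ℕ → Bool} {ρ p : Bool} {l : α → List ℕ}
    (hβ : Computable fun x : α × ℕ × ℕ => β x.1 x.2.1 x.2.2) (hl : Computable l) :
    Computable fun a => dec ρ (β a) p (l a) := by
  simp only [dec_foldl]
  refine RE.list_foldl (f := fun a => (l a).reverse) (g := fun _ : α => (p, ([] : List (List ℕ))))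
    (h := fun (x : α) (q : (Bool × List (List ℕ)) × ℕ) => dstep ρ (β x) q.1 q.2)
    (Computable.list_reverse.comp hl) (Computable.const _) ?_
  unfold Computable₂ dstep
  have h1 : Computable fun x : α × (Bool × List (List ℕ)) × ℕ =>
      decide (x.2.1.2.length = 0) :=
    c_deq (f := fun x : α × (Bool × List (List ℕ)) × ℕ => x.2.1.2.length) (g := fun _ => 0)
      (by fun_prop) (by fun_prop)
  have h2 : Computable fun x : α × (Bool × List (List ℕ)) × ℕ =>
      β x.1 x.2.2 ((x.2.1.2.headD []).headD 0) := by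
    refine hβ.comp (g := fun x : α × (Bool × List (List ℕ)) × ℕ =>
      (x.1, x.2.2, (x.2.1.2.headD []).headD 0)) ?_
    refine Computable.pair (by fun_prop) (Computable.pair (by fun_prop) (c_headD ?_))
    exact c_headD' (by fun_prop)
  have h3 : Computable fun x : α × (Bool × List (List ℕ)) × ℕ => psh x.2.2 x.2.1.2 :=
    c_psh (f := fun x : α × (Bool × List (List ℕ)) × ℕ => x.2.1.2) (g := fun x => x.2.2)
      (by fun_prop) (by fun_prop)
  refine ccond h1 (by fun_prop) (ccond h2 (Computable.pair (by fun_prop) (ccond ?_ h3 ?_))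
    (Computable.pair (by fun_prop) h3))
  · exact c_xor (f := fun x : α × (Bool × List (List ℕ)) × ℕ => x.2.1.1) (g := fun _ => ρ)
      (by fun_prop) (by fun_prop)
  · fun_prop

/-- The sum over consecutive blocks as a fold. -/
def ssf (f : List ℕ → ℕ → Bool) (X : List (List ℕ)) : Bool :=
  (X.foldl (fun (st : (Bool × List ℕ) × Bool) C => ((true, C),
    bif st.1.1 then xor st.2 (f st.1.2 (C.headD 0)) else st.2)) ((false, []), false)).2

theorem ssf_aux (f : List ℕ → ℕ → Bool) (X : List (List ℕ)) (B : List ℕ) (acc : Bool) :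
    (X.foldl (fun (st : (Bool × List ℕ) × Bool) C => ((true, C),
    bif st.1.1 then xor st.2 (f st.1.2 (C.headD 0)) else st.2)) ((true, B), acc)).2 =
      xor acc (ss f (B :: X)) := by
  induction X generalizing B acc with
  | nil => simp [ss]
  | cons C X ih =>
    rw [List.foldl_cons]
    simp only [cond_true]
    rw [ih]
    simp [ss]

theorem ssf_eq (f : List ℕ → ℕ → Bool) (X : List (List ℕ)) : ssf f X = ss f X := by
  cases X with
  | nil => rfl
  | cons B X =>
    unfold ssf
    rw [List.foldl_cons]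
    simp only [cond_false]
    rw [ssf_aux]
    simp

theorem c_ss {f : α → List ℕ → ℕ → Bool} {X : α → List (List ℕ)}
    (hf : Computable fun p : α × List ℕ × ℕ => f p.1 p.2.1 p.2.2) (hX : Computable X) :
    Computable fun a => ss (f a) (X a) := by
  have h : Computable fun a => ssf (f a) (X a) := by
    unfold ssf
    refine Computable.snd.comp ?_
    refine RE.list_foldl (h := fun (a : α) (p : ((Bool × List ℕ) × Bool) × List ℕ) =>
      ((true, p.2), bif p.1.1.1 then xor p.1.2 (f a p.1.1.2 (p.2.headD 0)) else p.1.2)) hX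
      (Computable.const _) ?_
    unfold Computable₂
    have h1 : Computable fun x : α × (((Bool × List ℕ) × Bool) × List ℕ) =>
        f x.1 x.2.1.1.2 (x.2.2.headD 0) :=
      hf.comp (g := fun x : α × (((Bool × List ℕ) × Bool) × List ℕ) =>
        (x.1, x.2.1.1.2, x.2.2.headD 0)) (by fun_prop)
    fun_prop
  exact h.of_eq fun a => ssf_eq _ _

variable {θ : ℕ → ℕ → ℕ → ℕ → Bool} {β : ℕ → ℕ → ℕ → Bool}

theorem c_bk (hβ : Computable fun x : ℕ × ℕ × ℕ => β x.1 x.2.1 x.2.2) {ρ : Bool} {B : α → List ℕ}
    (hB : Computable B) : Computable fun a => bk β ρ (B a) := by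
  unfold bk
  refine Computable.snd.comp (c_dec (β := fun a => β ((B a).getLastD 0)) ?_ hB)
  exact hβ.comp (g := fun x : α × ℕ × ℕ => ((B x.1).getLastD 0, x.2.1, x.2.2)) (by fun_prop)

theorem c_sθ (hθ : Computable fun x : (ℕ × ℕ) × ℕ × ℕ => θ x.1.1 x.1.2 x.2.1 x.2.2)
    (hβ : Computable fun x : ℕ × ℕ × ℕ => β x.1 x.2.1 x.2.2) {ρ : Bool} {a : α → ℕ}
    {B : α → List ℕ} (ha : Computable a) (hB : Computable B) :
    Computable fun x => sθ θ β ρ (a x) (B x) := by
  unfold sθ
  refine c_ss (f := fun x C t => θ ((B x).getLastD 0) (a x) (C.getLastD 0) t) ?_ (c_bk hβ hB)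
  exact hθ.comp (g := fun x : α × List ℕ × ℕ =>
    (((B x.1).getLastD 0, a x.1), x.2.1.getLastD 0, x.2.2)) (by fun_prop)

theorem c_Z (hθ : Computable fun x : (ℕ × ℕ) × ℕ × ℕ => θ x.1.1 x.1.2 x.2.1 x.2.2)
    (hβ : Computable fun x : ℕ × ℕ × ℕ => β x.1 x.2.1 x.2.2) {ρ : Bool} {a : α → ℕ}
    {B : α → List ℕ} (ha : Computable a) (hB : Computable B) :
    Computable fun x => Z θ β ρ (a x) (B x) := by
  simp only [Z_iter]
  refine Computable.fst.comp ?_
  refine Computable.nat_rec (f := fun x => (B x).length)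
    (g := fun x : α => (false, [B x]))
    (h := fun (x : α) (y : ℕ × (Bool × List (List ℕ))) => stp θ β ρ (a x) y.2)
    (by fun_prop) (by fun_prop) ?_
  unfold Computable₂ stp
  refine RE.list_foldl (f := fun x : α × ℕ × (Bool × List (List ℕ)) => x.2.2.2)
    (g := fun x : α × ℕ × (Bool × List (List ℕ)) => (x.2.2.1, ([] : List (List ℕ))))
    (h := fun (x : α × ℕ × (Bool × List (List ℕ))) (q : (Bool × List (List ℕ)) × List ℕ) =>
      (xor q.1.1 (sθ θ β ρ (a x.1) q.2), (bk β ρ q.2).dropLast ++ q.1.2))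
    (by fun_prop) (by fun_prop) ?_
  unfold Computable₂
  have h1 : Computable fun x : (α × ℕ × (Bool × List (List ℕ))) ×
      ((Bool × List (List ℕ)) × List ℕ) => sθ θ β ρ (a x.1.1) x.2.2 :=
    c_sθ hθ hβ (by fun_prop) (by fun_prop)
  have h2 : Computable fun x : (α × ℕ × (Bool × List (List ℕ))) ×
      ((Bool × List (List ℕ)) × List ℕ) => (bk β ρ x.2.2).dropLast :=
    c_dropLast (c_bk hβ (by fun_prop))
  fun_prop

end comp

variable {W : ℕ → ℕ → Bool}

theorem c_bd (hW : Computable fun q : ℕ × ℕ => W q.1 q.2) :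
    Computable fun x : ℕ × ℕ × ℕ => bd W x.1 x.2.1 x.2.2 := by
  unfold bd
  have h := (c_g1 hW).comp (g := fun x : ℕ × ℕ × ℕ => ((x.1, x.2.1), x.2.2, x.1)) (by fun_prop)
  exact cnot h

theorem c_cN (hW : Computable fun q : ℕ × ℕ => W q.1 q.2) : Computable (cN W) := by
  unfold cN
  refine c_gs (γ := fun n => bd W (mu n)) ?_ (by fun_prop)
  exact (c_bd hW).comp (g := fun x : ℕ × ℕ × ℕ => (mu x.1, x.2.1, x.2.2)) (by fun_prop)

theorem c_cT (hW : Computable fun q : ℕ × ℕ => W q.1 q.2) {θ : ℕ → ℕ → ℕ → ℕ → Bool}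
    (hθ : Computable fun x : (ℕ × ℕ) × ℕ × ℕ => θ x.1.1 x.1.2 x.2.1 x.2.2) {ρ : Bool} :
    Computable (cT W θ ρ) := by
  unfold cT
  exact c_Z hθ (c_bd hW) (by fun_prop) (by fun_prop)

end Pool.Agent.W6h79.HT3
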