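import Pool.Agent.H645R2.HT.Mod

/-!
Decompositions of lists of positions into blocks, and the sums over consecutive blocks.
-/

namespace Pool.Agent.W6h79.HT3

open Pool.Agent.H645R2.HT

/-- Push a letter into the first block. -/
def psh (a : ℕ) : List (List ℕ) → List (List ℕ)
  | [] => [[a]]
  | B :: Bs => (a :: B) :: Bs

/-- The parity `p` of the number of boundaries (counted from the right, starting with `p`), and the
decomposition of the list at the boundaries above which the parity is `ρ`. -/
def dec (ρ : Bool) (β : ℕ → ℕ → Bool) (p : Bool) : List ℕ → Bool × List (List ℕ)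
  | [] => (p, [])
  | [a] => (p, [[a]])
  | a :: b :: l =>
    bif β a b then (!(dec ρ β p (b :: l)).1,
      bif xor (dec ρ β p (b :: l)).1 ρ then psh a (dec ρ β p (b :: l)).2
        else [a] :: (dec ρ β p (b :: l)).2)
    else ((dec ρ β p (b :: l)).1, psh a (dec ρ β p (b :: l)).2)

variable {ρ p : Bool} {β β' : ℕ → ℕ → Bool}

theorem dec_cons_true {a b : ℕ} {l : List ℕ} (h : β a b = true)
    (h2 : (dec ρ β p (b :: l)).1 = ρ) :
    dec ρ β p (a :: b :: l) = (!ρ, [a] :: (dec ρ β p (b :: l)).2) := by
  simp only [dec, h, cond_true]
  rw [h2]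
  cases ρ <;> rfl

theorem dec_cons_true' {a b : ℕ} {l : List ℕ} (h : β a b = true)
    (h2 : (dec ρ β p (b :: l)).1 = !ρ) :
    dec ρ β p (a :: b :: l) = (ρ, psh a (dec ρ β p (b :: l)).2) := by
  simp only [dec, h, cond_true]
  rw [h2]
  cases ρ <;> rfl

theorem dec_cons_false {a b : ℕ} {l : List ℕ} (h : β a b = false) :
    dec ρ β p (a :: b :: l) = ((dec ρ β p (b :: l)).1, psh a (dec ρ β p (b :: l)).2) := by
  simp only [dec, h, cond_false]

theorem dec_fst (l : List ℕ) : (dec ρ β p l).1 = xor p (gs β l) := by
  induction l with
  | nil => simp [dec, gs]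
  | cons a l ih =>
    cases l with
    | nil => simp [dec, gs]
    | cons b l =>
      cases h : β a b
      · rw [dec_cons_false h, ih]
        simp [gs, h]
      · simp only [dec, h, cond_true, ih, gs]
        cases p <;> cases gs β (b :: l) <;> rfl

/-- The shape of the decomposition of a nonempty list. -/
theorem dec_head (a : ℕ) (l : List ℕ) :
    ∃ B Bs, (dec ρ β p (a :: l)).2 = (a :: B) :: Bs := by
  cases l with
  | nil => exact ⟨[], [], rfl⟩
  | cons b l =>
    cases h : β a b
    · rw [dec_cons_false h]
      cases h2 : (dec ρ β p (b :: l)).2 with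
      | nil => exact ⟨[], [], rfl⟩
      | cons B Bs => exact ⟨B, Bs, rfl⟩
    · rcases Bool.eq_or_eq_not (dec ρ β p (b :: l)).1 ρ with h2 | h2
      · rw [dec_cons_true h h2]
        exact ⟨[], _, rfl⟩
      · rw [dec_cons_true' h h2]
        cases h2 : (dec ρ β p (b :: l)).2 with
        | nil => exact ⟨[], [], rfl⟩
        | cons B Bs => exact ⟨B, Bs, rfl⟩

theorem dec_ne_nil {l : List ℕ} (h : l ≠ []) : (dec ρ β p l).2 ≠ [] := by
  cases l with
  | nil => exact absurd rfl h
  | cons a l =>
    obtain ⟨B, Bs, h1⟩ := dec_head (ρ := ρ) (β := β) (p := p) a l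
    rw [h1]
    simp

theorem psh_append (a : ℕ) {X Y : List (List ℕ)} (h : X ≠ []) : psh a (X ++ Y) = psh a X ++ Y := by
  cases X with
  | nil => exact absurd rfl h
  | cons B Bs => rfl

theorem psh_flatten (a : ℕ) (X : List (List ℕ)) : (psh a X).flatten = a :: X.flatten := by
  cases X <;> simp [psh]

theorem dec_flatten (l : List ℕ) : (dec ρ β p l).2.flatten = l := by
  induction l with
  | nil => simp [dec]
  | cons a l ih =>
    cases l with
    | nil => simp [dec]
    | cons b l =>
      cases h : β a b
      · rw [dec_cons_false h, psh_flatten, ih]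
      · rcases Bool.eq_or_eq_not (dec ρ β p (b :: l)).1 ρ with h2 | h2
        · rw [dec_cons_true h h2, List.flatten_cons, ih]
          rfl
        · rw [dec_cons_true' h h2, psh_flatten, ih]

theorem psh_mem_ne {a : ℕ} {X : List (List ℕ)} (h : ∀ B ∈ X, B ≠ []) : ∀ B ∈ psh a X, B ≠ [] := by
  cases X with
  | nil => simp [psh]
  | cons B Bs =>
    intro C hC
    simp only [psh, List.mem_cons] at hC
    rcases hC with rfl | hC
    · simp
    · exact h C (List.mem_cons_of_mem _ hC)

theorem dec_mem_ne (l : List ℕ) : ∀ B ∈ (dec ρ β p l).2, B ≠ [] := by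
  induction l with
  | nil => simp [dec]
  | cons a l ih =>
    cases l with
    | nil => simp [dec]
    | cons b l =>
      cases h : β a b
      · rw [dec_cons_false h]
        exact psh_mem_ne ih
      · rcases Bool.eq_or_eq_not (dec ρ β p (b :: l)).1 ρ with h2 | h2
        · rw [dec_cons_true h h2]
          intro C hC
          rcases List.mem_cons.1 hC with rfl | hC
          · simp
          · exact ih C hC
        · rw [dec_cons_true' h h2]
          exact psh_mem_ne ih

theorem getLastD_cons_cons (a b : ℕ) (l : List ℕ) (d : ℕ) :
    (a :: b :: l).getLastD d = (b :: l).getLastD d := by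
  simp [List.getLastD_eq_getLast?, List.getLast?_cons_cons]

/-- Decomposition of a concatenation, if the boundary between the two parts is kept. -/
theorem dec_append (l : List ℕ) (hl : l ≠ []) (r : List ℕ) (hr : r ≠ [])
    (h1 : β (l.getLastD 0) (r.headD 0) = true) (h2 : (dec ρ β p r).1 = ρ) :
    dec ρ β p (l ++ r) = ((dec ρ β (!ρ) l).1, (dec ρ β (!ρ) l).2 ++ (dec ρ β p r).2) := by
  induction l with
  | nil => exact absurd rfl hl
  | cons a l ih =>
    cases l with
    | nil =>
      cases r with
      | nil => exact absurd rfl hr
      | cons b r =>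
        have h1' : β a b = true := by simpa using h1
        rw [List.cons_append, List.nil_append, dec_cons_true h1' h2]
        rfl
    | cons b l =>
      rw [getLastD_cons_cons] at h1
      have h := ih (by simp) h1
      have hne : (dec ρ β (!ρ) (b :: l)).2 ≠ [] := dec_ne_nil (by simp)
      rw [List.cons_append] at h
      rw [List.cons_append, List.cons_append]
      cases h3 : β a b
      · rw [dec_cons_false h3, dec_cons_false h3, h, psh_append _ hne]
      · rcases Bool.eq_or_eq_not (dec ρ β (!ρ) (b :: l)).1 ρ with h4 | h4
        · rw [dec_cons_true h3 h4, dec_cons_true h3 (by rw [h]; exact h4), h]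
          rfl
        · rw [dec_cons_true' h3 h4, dec_cons_true' h3 (by rw [h]; exact h4), h,
            psh_append _ hne]

theorem dec_congr {l : List ℕ} (hl : l.Pairwise (· < ·))
    (h : ∀ a ∈ l, ∀ b ∈ l, a < b → β a b = β' a b) : dec ρ β p l = dec ρ β' p l := by
  induction l with
  | nil => rfl
  | cons a l ih =>
    cases l with
    | nil => rfl
    | cons b l =>
      rw [List.pairwise_cons] at hl
      simp only [dec]
      rw [h a (by simp) b (by simp) (hl.1 b (by simp)),
        ih hl.2 (fun x hx y hy hxy => h x (List.mem_cons_of_mem _ hx) y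
          (List.mem_cons_of_mem _ hy) hxy)]

/-- If the parity changes there is a boundary. -/
theorem good_head {P : ℕ → Prop} (hd : ∀ s t, s ≤ t → P t → P s) {l : List ℕ} {a : ℕ}
    (hl : (a :: l).Pairwise (· < ·)) (hP : ∀ x ∈ a :: l, ∀ y ∈ a :: l, x < y → β x y = true → P x)
    (h : gs β (a :: l) = true) : P a := by
  induction l generalizing a with
  | nil => simp [gs] at h
  | cons b l ih =>
    rw [List.pairwise_cons] at hl
    have hab := hl.1 b (by simp)
    cases h3 : β a b
    · simp only [gs, h3, Bool.false_xor] at h
      exact hd a b hab.le (ih hl.2 (fun x hx y hy => hP x (List.mem_cons_of_mem _ hx) y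
        (List.mem_cons_of_mem _ hy)) h)
    · exact hP a (by simp) b (by simp) hab h3

/-- All heads of blocks but the first are good. -/
theorem good_tail {P : ℕ → Prop} (hd : ∀ s t, s ≤ t → P t → P s) {l : List ℕ}
    (hl : l.Pairwise (· < ·)) (hP : ∀ x ∈ l, ∀ y ∈ l, x < y → β x y = true → P x) :
    ∀ C ∈ (dec ρ β (!ρ) l).2.tail, P (C.headD 0) := by
  induction l with
  | nil => simp [dec]
  | cons a l ih =>
    cases l with
    | nil => simp [dec]
    | cons b l =>
      have hl' := hl
      rw [List.pairwise_cons] at hl
      have hP' : ∀ x ∈ b :: l, ∀ y ∈ b :: l, x < y → β x y = true → P x :=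
        fun x hx y hy => hP x (List.mem_cons_of_mem _ hx) y (List.mem_cons_of_mem _ hy)
      have ih' := ih hl.2 hP'
      obtain ⟨B, Bs, hB⟩ := dec_head (ρ := ρ) (β := β) (p := !ρ) b l
      rw [hB] at ih'
      cases h3 : β a b
      · rw [dec_cons_false h3, hB]
        exact ih'
      · rcases Bool.eq_or_eq_not (dec ρ β (!ρ) (b :: l)).1 ρ with h4 | h4
        · rw [dec_cons_true h3 h4, hB]
          intro C hC
          simp only [List.tail_cons, List.mem_cons] at hC ih'
          rcases hC with rfl | hC
          · simp only [List.headD_cons]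
            refine good_head (β := β) hd hl.2 hP' ?_
            rw [dec_fst] at h4
            revert h4
            cases ρ <;> cases gs β (b :: l) <;> decide
          · exact ih' C hC
        · rw [dec_cons_true' h3 h4, hB]
          exact ih'

/-- The decomposition for `β` refines the last block of the decomposition for `β'`, if all additional
boundaries lie above the boundaries for `β'` and their number has parity `!ρ`. -/
theorem dec_split {l : List ℕ} (hl : l.Pairwise (· < ·)) (hne : l ≠ [])
    (h1 : ∀ x ∈ l, ∀ y ∈ l, x < y → β' x y = true → β x y = true)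
    (h2 : ∀ x ∈ l, ∀ y ∈ l, ∀ u ∈ l, ∀ v ∈ l, x < y → y ≤ u → u < v → β' u v = true →
      β x y = β' x y)
    (h3 : gs β l = xor (!ρ) (gs β' l)) :
    ∃ Bs Y, (dec ρ β' (!ρ) l).2 = Bs ++ [Y] ∧ (dec ρ β false l).2 = Bs ++ (dec ρ β false Y).2 ∧
      Y ≠ [] ∧ Y.getLastD 0 = l.getLastD 0 ∧ l = Bs.flatten ++ Y := by
  induction l with
  | nil => exact absurd rfl hne
  | cons a l ih =>
    cases l with
    | nil => exact ⟨[], [a], by simp [dec], by simp [dec], by simp, rfl, by simp⟩
    | cons b l =>
      have hl' := hl
      rw [List.pairwise_cons] at hl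
      have hab := hl.1 b (by simp)
      by_cases hex : ∃ u ∈ b :: l, ∃ v ∈ b :: l, u < v ∧ β' u v = true
      · -- there is a boundary above
        have hag : β a b = β' a b := by
          obtain ⟨u, hu, v, hv, huv, hb⟩ := hex
          refine h2 a (by simp) b (by simp) u (List.mem_cons_of_mem _ hu) v
            (List.mem_cons_of_mem _ hv) hab ?_ huv hb
          rcases List.mem_cons.1 hu with rfl | hu
          · exact le_rfl
          · have := hl.2
            rw [List.pairwise_cons] at this
            exact (this.1 u hu).le
        have h3' : gs β (b :: l) = xor (!ρ) (gs β' (b :: l)) := by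
          simp only [gs, hag] at h3
          revert h3
          cases β' a b <;> cases gs β (b :: l) <;> cases gs β' (b :: l) <;> cases ρ <;> decide
        obtain ⟨Bs, Y, e1, e2, e3, e4, e5⟩ := ih hl.2 (by simp)
          (fun x hx y hy => h1 x (List.mem_cons_of_mem _ hx) y (List.mem_cons_of_mem _ hy))
          (fun x hx y hy u hu v hv => h2 x (List.mem_cons_of_mem _ hx) y
            (List.mem_cons_of_mem _ hy) u (List.mem_cons_of_mem _ hu) v
            (List.mem_cons_of_mem _ hv)) h3'
        have hpar : (dec ρ β false (b :: l)).1 = (dec ρ β' (!ρ) (b :: l)).1 := by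
          rw [dec_fst, dec_fst, h3', Bool.false_xor]
        -- pushing
        have push : (∀ q, Bs = [] → (dec ρ β q (a :: b :: l)).2 =
            psh a (dec ρ β q (b :: l)).2 → True) → (β a b = false ∨
              (dec ρ β false (b :: l)).1 = !ρ) →
            ∃ Bs' Y', psh a (dec ρ β' (!ρ) (b :: l)).2 = Bs' ++ [Y'] ∧
              psh a (dec ρ β false (b :: l)).2 = Bs' ++ (dec ρ β false Y').2 ∧ Y' ≠ [] ∧
              Y'.getLastD 0 = (a :: b :: l).getLastD 0 ∧ a :: b :: l = Bs'.flatten ++ Y' := by
          intro _ hcase
          cases Bs with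
          | nil =>
            simp only [List.flatten_nil, List.nil_append] at e1 e2 e5
            refine ⟨[], a :: Y, ?_, ?_, by simp, ?_, ?_⟩
            · rw [e1]; rfl
            · rw [e2, List.nil_append, ← e5]
              rcases hcase with h | h
              · rw [dec_cons_false h]
              · rcases Bool.eq_or_eq_not (β a b) true with h' | h'
                · rw [dec_cons_true' h' h]
                · rw [dec_cons_false h']
            · rw [← e5]
            · simp [e5]
          | cons B Bs =>
            refine ⟨(a :: B) :: Bs, Y, ?_, ?_, e3, ?_, ?_⟩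
            · rw [e1]; rfl
            · rw [e2]; rfl
            · rw [e4, getLastD_cons_cons]
            · rw [e5]; simp
        cases h4 : β' a b
        · rw [h4] at hag
          rw [dec_cons_false h4, dec_cons_false hag]
          exact push (fun _ _ _ => trivial) (Or.inl hag)
        · rw [h4] at hag
          rcases Bool.eq_or_eq_not (dec ρ β false (b :: l)).1 ρ with h5 | h5
          · rw [dec_cons_true h4 (by rw [← hpar]; exact h5), dec_cons_true hag h5]
            refine ⟨[a] :: Bs, Y, by rw [e1]; rfl, by rw [e2]; rfl, e3, ?_, ?_⟩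
            · rw [e4, getLastD_cons_cons]
            · rw [e5]; simp
          · rw [dec_cons_true' h4 (by rw [← hpar]; exact h5), dec_cons_true' hag h5]
            exact push (fun _ _ _ => trivial) (Or.inr h5)
      · -- no boundary above
        push Not at hex
        have hfalse : ∀ u ∈ b :: l, ∀ v ∈ b :: l, u < v → β' u v = false := by
          intro u hu v hv huv
          have := hex u hu v hv huv
          simpa using this
        have hg0 : gs β' (b :: l) = false := gs_false hl.2 hfalse
        have hone : ∀ (m : List ℕ), m ≠ [] → m.Pairwise (· < ·) →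
            (∀ u ∈ m, ∀ v ∈ m, u < v → β' u v = false) → (dec ρ β' (!ρ) m).2 = [m] := by
          intro m
          induction m with
          | nil => intro h; exact absurd rfl h
          | cons c m ihm =>
            intro _ hm1 hm2
            cases m with
            | nil => rfl
            | cons d m =>
              rw [List.pairwise_cons] at hm1
              rw [dec_cons_false (hm2 c (by simp) d (by simp) (hm1.1 d (by simp))),
                ihm (by simp) hm1.2 (fun u hu v hv => hm2 u (List.mem_cons_of_mem _ hu) v
                  (List.mem_cons_of_mem _ hv))]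
              rfl
        cases h4 : β' a b
        · -- no boundary at all
          have h5 : (dec ρ β' (!ρ) (a :: b :: l)).2 = [a :: b :: l] := by
            rw [dec_cons_false h4, hone _ (by simp) hl.2 hfalse]
            rfl
          exact ⟨[], a :: b :: l, h5, rfl, by simp, rfl, by simp⟩
        · have h5 : β a b = true := h1 a (by simp) b (by simp) hab h4
          have h6 : (dec ρ β' (!ρ) (b :: l)).1 = !ρ := by
            rw [dec_fst, hg0, Bool.xor_false]
          have h7 : (dec ρ β false (b :: l)).1 = !ρ := by
            rw [dec_fst, Bool.false_xor]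
            simp only [gs, h4, h5, hg0] at h3
            revert h3
            cases gs β (b :: l) <;> cases ρ <;> decide
          refine ⟨[], a :: b :: l, ?_, rfl, by simp, rfl, by simp⟩
          rw [dec_cons_true' h4 h6, hone _ (by simp) hl.2 hfalse]
          rfl

/-- The sum over the pairs of consecutive blocks. -/
def ss (f : List ℕ → ℕ → Bool) : List (List ℕ) → Bool
  | [] => false
  | [_] => false
  | B :: C :: Bs => xor (f B (C.headD 0)) (ss f (C :: Bs))

theorem ss_append (f : List ℕ → ℕ → Bool) (X : List (List ℕ)) (hX : X ≠ []) (Y : List (List ℕ))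
    (hY : Y ≠ []) : ss f (X ++ Y) =
      xor (xor (ss f X) (f (X.getLastD []) ((Y.headD []).headD 0))) (ss f Y) := by
  induction X with
  | nil => exact absurd rfl hX
  | cons B X ih =>
    cases X with
    | nil =>
      cases Y with
      | nil => exact absurd rfl hY
      | cons C Y => simp [ss]
    | cons C X =>
      have h := ih (by simp)
      have e : (B :: C :: X).getLastD [] = (C :: X).getLastD [] := by
        simp [List.getLastD_eq_getLast?, List.getLast?_cons_cons]
      rw [e]
      simp only [List.cons_append, ss] at h ⊢
      rw [h]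
      simp only [Bool.xor_assoc]

theorem ss_congr {f g : List ℕ → ℕ → Bool} {P : ℕ → Prop} (hfg : ∀ C t, P t → f C t = g C t)
    {X : List (List ℕ)} (h : ∀ C ∈ X.tail, P (C.headD 0)) : ss f X = ss g X := by
  induction X with
  | nil => rfl
  | cons B X ih =>
    cases X with
    | nil => rfl
    | cons C X =>
      simp only [ss]
      simp only [List.tail_cons, List.mem_cons, forall_eq_or_imp] at h
      rw [hfg B _ h.1, ih h.2]

theorem ss_congr' {f g : List ℕ → ℕ → Bool} {X : List (List ℕ)}
    (h : ∀ C ∈ X.dropLast, ∀ t, f C t = g C t) : ss f X = ss g X := by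
  induction X with
  | nil => rfl
  | cons B X ih =>
    cases X with
    | nil => rfl
    | cons C X =>
      simp only [ss]
      rw [List.dropLast_cons_of_ne_nil (by simp)] at h
      rw [h B (by simp), ih (fun D hD => h D (List.mem_cons_of_mem _ hD))]

theorem ss_split (f : List ℕ → ℕ → Bool) (Bs : List (List ℕ)) (Y : List ℕ) (E : List (List ℕ))
    (hE : E ≠ []) (h : (E.headD []).headD 0 = Y.headD 0) :
    ss f (Bs ++ E) = xor (ss f (Bs ++ [Y])) (ss f E) := by
  cases Bs with
  | nil => simp [ss]
  | cons B Bs =>
    rw [ss_append f _ (by simp) _ hE, ss_append f _ (by simp) [Y] (by simp), h]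
    simp [ss]

end Pool.Agent.W6h79.HT3
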