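import Pool.Agent.W6h79.HT3.Comp3

/-!
The diagonal function: given decisions of facts, a value at `(a, b)` which differs from the value
at an earlier place `(a, mu h)` for the element `h` picked at stage `b`.
-/

namespace Pool.Agent.W6h79.HT3

open Pool.Agent.H645R2.HT Pool.Agent.Helper446 Pool.Agent.Helper446.RE

variable {V V' : ℕ → ℕ → Bool} {s s' : ℕ}

theorem al_congr (h : V s = V' s') (e v x a : ℕ) : al V e v s x a = al V' e v s' x a := by
  unfold al
  rw [h]

theorem tst_congr (h : V s = V' s') (e v : ℕ) (T : List ℕ) : tst V e v s T = tst V' e v s' T := by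
  funext c
  unfold tst
  rw [al_congr h, al_congr h]

theorem TT_congr (h : V s = V' s') (v e : ℕ) : TT V v s e = TT V' v s' e := by
  induction e with
  | zero => rfl
  | succ e ih => simp only [TT, ih, tst_congr h]

theorem pick_congr (h : V s = V' s') (v e : ℕ) : pick V v s e = pick V' v s' e := by
  unfold pick
  rw [TT_congr h, tst_congr h]

/-- The history: the list of all `(v, x)` with `v < n` at which the value is `1`. -/
def H2 (V : ℕ → ℕ → Bool) (s : ℕ) : ℕ → List (ℕ × ℕ)
  | 0 => []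
  | n + 1 => (List.range n).foldl (fun acc e =>
      bif decide (pick V n s e < n) &&
        !(decide ((mu (ph (pick V n s e)), la (ph (pick V n s e))) ∈ H2 V s n))
      then (n, la (ph (pick V n s e))) :: acc else acc) (H2 V s n)

theorem H2_congr (h : V s = V' s') (n : ℕ) : H2 V s n = H2 V' s' n := by
  induction n with
  | zero => rfl
  | succ n ih => simp only [H2, ih, pick_congr h]

theorem mem_H2_succ {n : ℕ} {y : ℕ × ℕ} : y ∈ H2 V s (n + 1) ↔ y ∈ H2 V s n ∨
    ∃ e < n, pick V n s e < n ∧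
      (mu (ph (pick V n s e)), la (ph (pick V n s e))) ∉ H2 V s n ∧
      y = (n, la (ph (pick V n s e))) := by
  rw [H2, mem_foldl]
  simp only [List.mem_range, Bool.and_eq_true, decide_eq_true_eq, Bool.not_eq_true',
    decide_eq_false_iff_not, and_assoc]

theorem H2_lt {n v x : ℕ} (h : (v, x) ∈ H2 V s n) : v < n := by
  induction n with
  | zero => simp [H2] at h
  | succ n ih =>
    rcases mem_H2_succ.1 h with h1 | ⟨e, _, _, _, h1⟩
    · exact Nat.lt_succ_of_lt (ih h1)
    · rw [(Prod.mk.inj h1).1]; exact Nat.lt_succ_self n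

theorem H2_stable {n m v x : ℕ} (hn : v < n) (hm : n ≤ m) :
    (v, x) ∈ H2 V s m ↔ (v, x) ∈ H2 V s n := by
  induction hm with
  | refl => rfl
  | @step m hm ih =>
    rw [mem_H2_succ, ih]
    constructor
    · rintro (h | ⟨e, _, _, _, h1⟩)
      · exact h
      · have := (Prod.mk.inj h1).1
        have h2 : n ≤ m := hm
        omega
    · exact Or.inl

/-- The diagonal function. -/
def dg2 (V : ℕ → ℕ → Bool) (s a b : ℕ) : Bool := decide ((b, a) ∈ H2 V s (b + 1))

theorem dg2_congr (h : V s = V' s') (a b : ℕ) : dg2 V s a b = dg2 V' s' a b := by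
  unfold dg2
  rw [H2_congr h]

theorem dg2_pick {v e : ℕ} (he : e < v) (h : pick V v s e < v) :
    dg2 V s (la (ph (pick V v s e))) v =
      !(dg2 V s (la (ph (pick V v s e))) (mu (ph (pick V v s e)))) := by
  have ht := tst_iff.1 (pick_tst h)
  have hmu : mu (ph (pick V v s e)) < v := by
    have := la_le_mu ht.2.2.2.1
    omega
  unfold dg2
  rw [Bool.eq_iff_iff, Bool.not_eq_true', decide_eq_true_iff, decide_eq_false_iff_not,
    mem_H2_succ, ← H2_stable (V := V) (s := s) (m := v) (Nat.lt_succ_self _) hmu]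
  constructor
  · rintro (h1 | ⟨e', he', h2, h3, h4⟩)
    · exact absurd (H2_lt h1) (lt_irrefl _)
    · have h5 := (Prod.mk.inj h4).2
      have h6 := pick_inj h h2 h5
      subst h6
      exact h3
  · intro h1
    exact Or.inr ⟨e, he, h, h1, rfl⟩

section comp

variable {α : Type*} [Primcodable α]

theorem c_H2 (hV : Computable fun q : ℕ × ℕ => V q.1 q.2) {f1 f2 : α → ℕ}
    (h1 : Computable f1) (h2 : Computable f2) :
    Computable fun a => H2 V (f1 a) (f2 a) := by
  have h := Computable.nat_rec (f := f2) (g := fun _ : α => ([] : List (ℕ × ℕ)))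
    (h := fun (a : α) (y : ℕ × List (ℕ × ℕ)) =>
      (List.range y.1).foldl (fun acc e =>
      bif decide (pick V y.1 (f1 a) e < y.1) &&
        !(decide ((mu (ph (pick V y.1 (f1 a) e)), la (ph (pick V y.1 (f1 a) e))) ∈ y.2))
      then (y.1, la (ph (pick V y.1 (f1 a) e))) :: acc else acc)
        y.2)
    h2 (Computable.const []) ?_
  · refine h.of_eq fun a => ?_
    generalize f2 a = n
    induction n with
    | zero => rfl
    | succ n ih => simp only [H2]; rw [← ih]
  · unfold Computable₂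
    refine RE.list_foldl (f := fun x : α × (ℕ × List (ℕ × ℕ)) => List.range x.2.1)
      (g := fun x : α × (ℕ × List (ℕ × ℕ)) => x.2.2)
      (h := fun (x : α × (ℕ × List (ℕ × ℕ))) (p : List (ℕ × ℕ) × ℕ) =>
      bif decide (pick V x.2.1 (f1 x.1) p.2 < x.2.1) &&
        !(decide ((mu (ph (pick V x.2.1 (f1 x.1) p.2)), la (ph (pick V x.2.1 (f1 x.1) p.2))) ∈
          x.2.2))
      then (x.2.1, la (ph (pick V x.2.1 (f1 x.1) p.2))) ::
        p.1 else p.1) (Primrec.list_range.to_comp.comp (by fun_prop)) (by fun_prop) ?_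
    unfold Computable₂
    have hpk : Computable fun x : (α × (ℕ × List (ℕ × ℕ))) × (List (ℕ × ℕ) × ℕ) =>
        pick V x.1.2.1 (f1 x.1.1) x.2.2 :=
      c_pick hV (by fun_prop) (by fun_prop) (by fun_prop)
    have hmem : Computable fun x : (α × (ℕ × List (ℕ × ℕ))) × (List (ℕ × ℕ) × ℕ) =>
        decide ((mu (ph (pick V x.1.2.1 (f1 x.1.1) x.2.2)),
          la (ph (pick V x.1.2.1 (f1 x.1.1) x.2.2))) ∈ x.1.2.2) :=
      c_mem (f := fun x : (α × (ℕ × List (ℕ × ℕ))) × (List (ℕ × ℕ) × ℕ) =>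
        (mu (ph (pick V x.1.2.1 (f1 x.1.1) x.2.2)), la (ph (pick V x.1.2.1 (f1 x.1.1) x.2.2))))
        (l := fun x => x.1.2.2) (by fun_prop) (by fun_prop)
    have hlt : Computable fun x : (α × (ℕ × List (ℕ × ℕ))) × (List (ℕ × ℕ) × ℕ) =>
        decide (pick V x.1.2.1 (f1 x.1.1) x.2.2 < x.1.2.1) :=
      c_dlt (f := fun x : (α × (ℕ × List (ℕ × ℕ))) × (List (ℕ × ℕ) × ℕ) =>
        pick V x.1.2.1 (f1 x.1.1) x.2.2) (g := fun x => x.1.2.1) hpk (by fun_prop)
    exact ccond (cand hlt (cnot hmem)) (ccons (cpair (by fun_prop) (c_la (c_ph hpk)))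
      (by fun_prop)) (by fun_prop)

theorem c_dg2 (hV : Computable fun q : ℕ × ℕ => V q.1 q.2) {f1 f2 f3 : α → ℕ}
    (h1 : Computable f1) (h2 : Computable f2) (h3 : Computable f3) :
    Computable fun a => dg2 V (f1 a) (f2 a) (f3 a) := by
  unfold dg2
  exact c_mem (f := fun a => (f3 a, f2 a)) (l := fun a => H2 V (f1 a) (f3 a + 1)) (by fun_prop)
    (c_H2 hV h1 (by fun_prop))

end comp

variable {W : ℕ → ℕ → Bool} {X : Set ℕ}

/-- The decisions of `Σ⁰₂` facts. -/
def W2 (W : ℕ → ℕ → Bool) (r z : ℕ) : Bool := inA W p0 r.unpair.1 r.unpair.2 z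

theorem c_W2 (hW : Computable fun q : ℕ × ℕ => W q.1 q.2) :
    Computable fun q : ℕ × ℕ => W2 W q.1 q.2 := by
  unfold W2
  exact c_inA hW c_p0 (by fun_prop) (by fun_prop) (by fun_prop)

/-- The function used in the colouring. -/
def th (W : ℕ → ℕ → Bool) (s a b t : ℕ) : Bool := dg2 (W2 W) (Nat.pair s t) a b

theorem c_th (hW : Computable fun q : ℕ × ℕ => W q.1 q.2) :
    Computable fun x : (ℕ × ℕ) × ℕ × ℕ => th W x.1.1 x.1.2 x.2.1 x.2.2 := by
  unfold th
  exact c_dg2 (c_W2 hW) (by fun_prop) (by fun_prop) (by fun_prop)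

open Classical in
/-- The true decisions. -/
noncomputable def VT (W : ℕ → ℕ → Bool) (t z : ℕ) : Bool := decide (TA W p0 t z)

/-- The true value of the function used in the colouring. -/
noncomputable def thT (W : ℕ → ℕ → Bool) (a b t : ℕ) : Bool := dg2 (VT W) t a b

theorem VT_iff {t z : ℕ} : VT W t z = true ↔ TA W p0 t z := by simp [VT]

theorem th_eq {s a b t : ℕ} (h : Gd W s t) : th W s a b t = thT W a b t := by
  unfold th thT
  refine dg2_congr ?_ a b
  funext z
  unfold W2
  simp only [Nat.unpair_pair]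
  rw [Bool.eq_iff_iff, inA_iff, VT_iff]
  unfold TA
  constructor
  · rintro ⟨y, hy, h1, h2⟩
    refine ⟨y, hy, h1, fun r => ?_⟩
    by_contra hc
    rw [Bool.not_eq_false] at hc
    have := h y hy r hc
    rw [h2] at this; cases this
  · rintro ⟨y, hy, h1, h2⟩
    exact ⟨y, hy, h1, h2 _⟩

/-- False witnesses are refuted. -/
theorem exists_dead2 (ψ : ℕ → Prop) (e N : ℕ) : ∃ v0, ∀ c ≤ N,
    ((∀ b, Nat.pair e (Nat.pair (ph c) (Nat.pair (pa c) b)) ≤ v0 →
        ψ (Nat.pair e (Nat.pair (ph c) (Nat.pair (pa c) b)))) →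
      ∀ b, ψ (Nat.pair e (Nat.pair (ph c) (Nat.pair (pa c) b)))) := by
  classical
  have key : ∀ c, ∃ v0, ((∀ b, Nat.pair e (Nat.pair (ph c) (Nat.pair (pa c) b)) ≤ v0 →
        ψ (Nat.pair e (Nat.pair (ph c) (Nat.pair (pa c) b)))) →
      ∀ b, ψ (Nat.pair e (Nat.pair (ph c) (Nat.pair (pa c) b)))) := by
    intro c
    by_cases h : ∀ b, ψ (Nat.pair e (Nat.pair (ph c) (Nat.pair (pa c) b)))
    · exact ⟨0, fun _ => h⟩
    · push Not at h
      obtain ⟨b, hb⟩ := h
      exact ⟨_, fun h' => absurd (h' b le_rfl) hb⟩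
  choose g hg using key
  refine ⟨(Finset.range (N + 1)).sup g, fun c hc h => hg c fun b hb => h b ?_⟩
  have h5 : c ∈ Finset.range (N + 1) := Finset.mem_range.2 (Nat.lt_succ_of_le hc)
  exact le_trans hb (Finset.le_sup (f := g) h5)

theorem mu_le (n : ℕ) : mu n ≤ n := by
  rcases Nat.eq_zero_or_pos n with h | h
  · subst h
    simp [mu, L]
  · exact (dg_lt (mem_L.1 (mu_mem h))).le

/-- No `Σ⁰₄` set satisfies the relation. -/
theorem no_sigma4 (hp : Ps X) (hf : Far X)
    (hrel : ∀ x ∈ X, ∀ y ∈ X, ∀ z ∈ X, Pool.Agent.H645R2.HT.Sep x y →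
      Pool.Agent.H645R2.HT.Sep y z →
      thT W (la x) (mu x) (la z) = thT W (la x) (mu y) (la z)) (e : ℕ)
    (hX : ∀ n, n ∈ X ↔ ∃ a, ∀ b, A W p0 (Nat.pair e (Nat.pair n (Nat.pair a b)))) : False := by
  obtain ⟨f, hf1, hf2⟩ := exists_chain hf
  have hsm := chain_strict hp hf1 hf2
  choose w hw using fun i => (hX (f i)).1 (hf1 i)
  let cc : ℕ → ℕ := fun i => Nat.pair (Nat.pair (f i) (w i)) (Nat.pair (f (i + 1)) (w (i + 1)))
  obtain ⟨N, hN⟩ : ∃ N, ∀ i ≤ e, cc i ≤ N ∧ mu (f (i + 1)) ≤ N := by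
    refine ⟨(Finset.range (e + 1)).sup (fun i => max (cc i) (mu (f (i + 1)))), fun i hi => ?_⟩
    have h5 : i ∈ Finset.range (e + 1) := Finset.mem_range.2 (Nat.lt_succ_of_le hi)
    have h6 := Finset.le_sup (f := fun i => max (cc i) (mu (f (i + 1)))) h5
    exact ⟨le_trans (le_max_left _ _) h6, le_trans (le_max_right _ _) h6⟩
  obtain ⟨v0, hv0⟩ := exists_dead2 (A W p0) e N
  obtain ⟨y, hy, hyl⟩ := hf (max (max v0 N) e)
  have hymu := la_le_mu (hp y hy)
  obtain ⟨M, hM⟩ := exists_settled (W := W) (p := p0) (mu y + 1)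
  obtain ⟨z, hz, hzl⟩ := hf (max M (mu y))
  have hyz : Pool.Agent.H645R2.HT.Sep y z := by
    unfold Pool.Agent.H645R2.HT.Sep
    omega
  have hset : ∀ k ≤ mu y, (VT W (la z) k = true ↔ A W p0 k) := by
    intro k hk
    rw [VT_iff]
    exact hM (la z) (by omega) k (by omega)
  -- some candidate of the chain is available
  obtain ⟨i, hi, hit⟩ : ∃ i ≤ e, la (f i) ∉ TT (VT W) (mu y) (la z) e := by
    by_contra hc
    push Not at hc
    have h1 : (Finset.range (e + 1)).image (fun i => la (f i)) ⊆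
        (TT (VT W) (mu y) (la z) e).toFinset := by
      intro u hu
      obtain ⟨i, hi, rfl⟩ := Finset.mem_image.1 hu
      rw [List.mem_toFinset]
      exact hc i (by have := Finset.mem_range.1 hi; omega)
    have h2 := Finset.card_le_card h1
    rw [Finset.card_image_of_injective _ hsm.injective, Finset.card_range] at h2
    have h3 := List.toFinset_card_le (TT (VT W) (mu y) (la z) e)
    have h4 := TT_length (W := VT W) (v := mu y) (s := la z) (e := e)
    omega
  have hal : ∀ j, al (VT W) e (mu y) (la z) (f j) (w j) = true := by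
    intro j
    rw [al_iff]
    intro b hb
    exact (hset _ hb).2 (hw j b)
  have htst : tst (VT W) e (mu y) (la z) (TT (VT W) (mu y) (la z) e) (cc i) = true := by
    rw [tst_iff]
    simp only [ph, pa, pk, pb, cc, Nat.unpair_pair]
    refine ⟨hal _, hal _, hp _ (hf1 _), hp _ (hf1 _), hf2 i, ?_, hit⟩
    have := (hN i hi).2
    omega
  obtain ⟨h1, h2, h3⟩ := lst_lt_of
    (q := tst (VT W) e (mu y) (la z) (TT (VT W) (mu y) (la z) e))
    (n := mu y) (i := cc i) (by have := (hN i hi).1; omega) htst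
  change pick (VT W) (mu y) (la z) e ≤ cc i at h1
  change pick (VT W) (mu y) (la z) e < mu y at h2
  have ht := tst_iff.1 (pick_tst h2)
  have hcN : pick (VT W) (mu y) (la z) e ≤ N := le_trans h1 (hN i hi).1
  have hhX : ph (pick (VT W) (mu y) (la z) e) ∈ X := by
    rw [hX]
    refine ⟨_, hv0 _ hcN fun b hb => ?_⟩
    have h4 := al_iff.1 ht.1 b (by omega)
    exact (hset _ (by omega)).1 h4
  have hd := dg2_pick (V := VT W) (s := la z) (v := mu y) (e := e) (by omega) h2
  have hsep : Pool.Agent.H645R2.HT.Sep (ph (pick (VT W) (mu y) (la z) e)) y := by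
    unfold Pool.Agent.H645R2.HT.Sep
    have h5 := mu_le (ph (pick (VT W) (mu y) (la z) e))
    have h6 : ph (pick (VT W) (mu y) (la z) e) ≤ pick (VT W) (mu y) (la z) e :=
      le_trans (Nat.unpair_left_le _) (Nat.unpair_left_le _)
    omega
  have hr := hrel _ hhX y hy z hz hsep hyz
  unfold thT at hr
  rw [hd] at hr
  revert hr
  generalize dg2 (VT W) (la z) (la (ph (pick (VT W) (mu y) (la z) e)))
    (mu (ph (pick (VT W) (mu y) (la z) e))) = a
  cases a <;> decide

end Pool.Agent.W6h79.HT3
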