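import Pool.Agent.W6h79.HT3.Diag3

/-!
A computable colouring none of whose infinite homogeneous sets for sums of at most three distinct
elements is `Σ⁰₄`.
-/

namespace Pool.Agent.W6h79.HT3

open Pool.Agent.H645R2.HT Pool.Agent.Helper446 Pool.Agent.Helper446.RE

/-- Packing five bits. -/
def pack5 (q : Bool × Bool × Bool × Bool × Bool) : Fin 32 :=
  (if q.1 then 1 else 0) + (if q.2.1 then 2 else 0) + (if q.2.2.1 then 4 else 0) +
    (if q.2.2.2.1 then 8 else 0) + (if q.2.2.2.2 then 16 else 0)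

/-- Unpacking. -/
def unpack5 (i : Fin 32) : Bool × Bool × Bool × Bool × Bool :=
  (i.val % 2 = 1, i.val / 2 % 2 = 1, i.val / 4 % 2 = 1, i.val / 8 % 2 = 1, i.val / 16 % 2 = 1)

theorem unpack_pack5 : ∀ q, unpack5 (pack5 q) = q := by decide

attribute [irreducible] pack5 unpack5

/-- The colouring. -/
def col5 (W : ℕ → ℕ → Bool) (n : ℕ) : Fin 32 :=
  pack5 (b0 n, C (g1 W) n, cN W n, cT W (th W) false n, cT W (th W) true n)

theorem c_col5 {W : ℕ → ℕ → Bool} (hW : Computable fun q : ℕ × ℕ => W q.1 q.2) :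
    Computable (col5 W) := by
  have h1 : Computable pack5 := (Primrec.dom_finite pack5).to_comp
  exact h1.comp (c_b0.pair (Computable.pair (c_C (c_g1 hW)) (Computable.pair (c_cN hW)
    (Computable.pair (c_cT hW (c_th hW)) (c_cT hW (c_th hW))))))

theorem col5_rel {W : ℕ → ℕ → Bool} (hW : Mon W) {X : Set ℕ} (hinf : X.Infinite) (hp : Ps X)
    (hc : Const3 (col5 W) X) : Far X ∧
    ∀ x ∈ X, ∀ y ∈ X, ∀ z ∈ X, Pool.Agent.H645R2.HT.Sep x y → Pool.Agent.H645R2.HT.Sep y z →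
      thT W (la x) (mu x) (la z) = thT W (la x) (mu y) (la z) := by
  have hu := hc.map unpack5
  have he : (fun n => unpack5 (col5 W n)) =
      fun n => (b0 n, C (g1 W) n, cN W n, cT W (th W) false n, cT W (th W) true n) :=
    funext fun n => unpack_pack5 _
  rw [he] at hu
  have h0 : Const3 b0 X := hu.map fun q => q.1
  have h1 : Const3 (C (g1 W)) X := hu.map fun q => q.2.1
  have h2 : Const3 (cN W) X := hu.map fun q => q.2.2.1
  have h3 : Const3 (cT W (th W) false) X := hu.map fun q => q.2.2.2.1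
  have h4 : Const3 (cT W (th W) true) X := hu.map fun q => q.2.2.2.2
  have hf := h0.far hinf hp
  have hM := modOK hW hp hf (h1.eq2 hp)
  refine ⟨hf, ?_⟩
  obtain ⟨i, i1, i2, _⟩ := h2.one
  have h5 : ∀ j, Const3 (cT W (th W) j) X := fun j => by cases j <;> assumption
  intro x hx y hy z hz hxy hyz
  have hθ : ∀ s a b t, Gd W s t → th W s a b t = thT W a b t := fun s a b t h => th_eq h
  have e2 := (h5 i).eq2 hp
  have e3 := (h5 i).eq3 hp
  exact main_rel (θ := th W) (θT := thT W) hW hp hf hM hθ i1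
    (fun x hx y hy hxy => i2 x hx y hy (sep_ne (hp x hx) hxy)) e2 e3 hx hy hz hxy hyz

/-- Every set `∃ a, ∀ b, ∃ t, ∀ u, R n a b t u` with `R` computable has an index. -/
theorem sigma4_univ {R : ℕ → ℕ → ℕ → ℕ → ℕ → Bool}
    (hR : Computable fun x : ℕ × ℕ × ℕ × ℕ × ℕ => R x.1 x.2.1 x.2.2.1 x.2.2.2.1 x.2.2.2.2) :
    ∃ e, ∀ n, (∃ a, ∀ b, ∃ t, ∀ u, R n a b t u = true) ↔
      ∃ a, ∀ b, A W0 p0 (Nat.pair e (Nat.pair n (Nat.pair a b))) := by
  obtain ⟨e, he⟩ := sigma2_univ (R := fun m t u =>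
    R m.unpair.1 m.unpair.2.unpair.1 m.unpair.2.unpair.2 t u)
    (hR.comp (g := fun q : ℕ × ℕ × ℕ => (q.1.unpair.1, q.1.unpair.2.unpair.1,
      q.1.unpair.2.unpair.2, q.2.1, q.2.2)) (by fun_prop))
  refine ⟨e, fun n => exists_congr fun a => forall_congr' fun b => ?_⟩
  rw [← he (Nat.pair n (Nat.pair a b))]
  simp only [Nat.unpair_pair]

theorem no_sigma4_col5 {X : Set ℕ} (hinf : X.Infinite) (h0 : 0 ∉ X)
    (hc : Const3 (col5 W0) X) (R : ℕ → ℕ → ℕ → ℕ → ℕ → Bool)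
    (hR : Computable fun x : ℕ × ℕ × ℕ × ℕ × ℕ => R x.1 x.2.1 x.2.2.1 x.2.2.2.1 x.2.2.2.2) :
    X ≠ {n | ∃ a, ∀ b, ∃ t, ∀ u, R n a b t u = true} := by
  intro hX
  have hp := ps_of h0
  obtain ⟨hf, hrel⟩ := col5_rel mon_W0 hinf hp hc
  obtain ⟨e, he⟩ := sigma4_univ hR
  refine no_sigma4 hp hf hrel e fun n => ?_
  rw [← he n]
  conv_lhs => rw [hX]
  exact Iff.rfl

end Pool.Agent.W6h79.HT3
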